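import Pool.Agent.H334R2.CM.Defs
import Pool.Agent.H334R2.CM.S.DIM1
import Pool.Agent.H334R2.CM.S.LIFT

/-!
# The Hecke algebra of the unipotent idempotent (task DIM2 of project CM)
-/

set_option autoImplicit false
open scoped Matrix MatrixGroups
universe u
namespace CM
namespace DIM2

section
variable {q : ℕ} [Fact q.Prime] {G : Type} [Group G] (D : BN q G)
  {k : Type u} [Field k] [CharP k 2] (ψ : AddChar (ZMod q) k)

omit [Fact q.Prime] in
lemma d_one : D.d 1 = 1 := by
  have h := D.d_mul 1 1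
  rw [mul_one] at h
  exact left_eq_mul.mp h

lemma n_zero : D.n 0 = 1 := by
  have h := D.n_add 0 0
  rw [add_zero] at h
  exact left_eq_mul.mp h

lemma d_neg' (a : (ZMod q)ˣ) : D.d (-a) = D.d a := by
  have h := D.d_mul (-1) a
  rw [D.d_neg, one_mul, neg_one_mul] at h
  exact h

/-- the general basis element -/
noncomputable def H (c : ZMod q) (a : (ZMod q)ˣ) : MonoidAlgebra k G :=
  eU D ψ c * gw D * gd D a * eU D ψ 1

omit [CharP k 2] in
lemma H_one (a : (ZMod q)ˣ) : H D ψ 1 a = hk D ψ a := rfl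

omit [CharP k 2] in
lemma H_neg (c : ZMod q) (a : (ZMod q)ˣ) : H D ψ c (-a) = H D ψ c a := by
  unfold H gd
  rw [d_neg']

lemma q_ne_two (hq : q % 4 = 3) : q ≠ 2 := by
  rintro rfl
  omega

lemma neg_one_not_sq (hq : q % 4 = 3) (a : ZMod q) : a ^ 2 ≠ -1 := by
  intro h
  have := (ZMod.exists_sq_eq_neg_one_iff (p := q)).mp ⟨a, by rw [← h, sq]⟩
  exact this hq

lemma mem_Sq (a : (ZMod q)ˣ) : a ∈ Sq q ↔ IsSquare a := by
  classical
  unfold Sq
  simp

/-- not both `a` and `-a` are squares -/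
lemma sq_neg (hq : q % 4 = 3) (a : (ZMod q)ˣ) (h : IsSquare a) : ¬ IsSquare (-a) := by
  rintro ⟨b, hb⟩
  obtain ⟨c, hc⟩ := h
  have h1 : (b * c⁻¹) ^ 2 = -1 := by
    rw [mul_pow, inv_pow, sq b, sq c, ← hb, ← hc]
    simp
  have h2 := congrArg (Units.val) h1
  push_cast at h2
  exact neg_one_not_sq hq _ h2

/-- `a` or `-a` is a square -/
lemma sq_or (hq : q % 4 = 3) (a : (ZMod q)ˣ) : IsSquare a ∨ IsSquare (-a) := by
  have h1 : (a : ZMod q) ≠ 0 := a.ne_zero
  have hodd : Odd (q / 2) := by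
    rw [Nat.odd_iff]
    omega
  rcases ZMod.pow_div_two_eq_neg_one_or_one q h1 with h | h
  · left
    obtain ⟨y, hy⟩ := (ZMod.euler_criterion_units q a).mpr (by
      ext
      push_cast
      exact h)
    exact ⟨y, by rw [← sq, hy]⟩
  · right
    obtain ⟨y, hy⟩ := (ZMod.euler_criterion_units q (-a)).mpr (by
      ext
      push_cast
      rw [hodd.neg_pow, h, neg_neg])
    exact ⟨y, by rw [← sq, hy]⟩

lemma card_Sq (hq : q % 4 = 3) : (Sq q).card = (q - 1) / 2 := by
  classical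
  have h1 : (Sq q)ᶜ.card = (Sq q).card := by
    refine Finset.card_nbij' (fun a => -a) (fun a => -a) ?_ ?_ ?_ ?_
    · intro a ha
      simp only [Finset.coe_compl, Set.mem_compl_iff, Finset.mem_coe, mem_Sq] at ha ⊢
      exact (sq_or hq a).resolve_left ha
    · intro a ha
      simp only [Finset.coe_compl, Set.mem_compl_iff, Finset.mem_coe, mem_Sq] at ha ⊢
      exact sq_neg hq a ha
    · intro a _
      simp
    · intro a _
      simp
  have h2 := Finset.card_add_card_compl (Sq q)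
  rw [h1, ZMod.card_units_eq_totient, Nat.totient_prime Fact.out] at h2
  omega

/-- Bruhat cell: Borel part -/
lemma borel_part (hq : q % 4 = 3) (hψ : ψ.IsPrimitive) (c : ZMod q) (x : ZMod q) (a : (ZMod q)ˣ) :
    eU D ψ c * MonoidAlgebra.single (D.n x * D.d a) 1 * eU D ψ 1 =
      if c = ((a⁻¹ : (ZMod q)ˣ) : ZMod q) ^ 2 then ψ (c * x) • (eU D ψ c * gd D a) else 0 := by
  have h1 : (MonoidAlgebra.single (D.n x * D.d a) 1 : MonoidAlgebra k G) =
      MonoidAlgebra.single (D.n x) 1 * gd D a := by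
    unfold gd
    rw [MonoidAlgebra.single_mul_single, one_mul]
  rw [h1, ← mul_assoc, eU_n, mul_assoc, d_eU, smul_mul_assoc, ← mul_assoc,
    eU_mul D ψ (q_ne_two hq) hψ, one_mul]
  split_ifs
  · rfl
  · rw [zero_mul, smul_zero]

/-- Bruhat cell: big cell -/
lemma big_part (c : ZMod q) (x : ZMod q) (a : (ZMod q)ˣ) (y : ZMod q) :
    eU D ψ c * MonoidAlgebra.single (D.n x * D.w * D.d a * D.n y) 1 * eU D ψ 1 =
      (ψ (c * x) * ψ y) • H D ψ c a := by
  have h1 : (MonoidAlgebra.single (D.n x * D.w * D.d a * D.n y) 1 : MonoidAlgebra k G) =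
      MonoidAlgebra.single (D.n x) 1 * gw D * gd D a * MonoidAlgebra.single (D.n y) 1 := by
    unfold gd gw
    simp only [MonoidAlgebra.single_mul_single, one_mul]
  have h2 := eU_n D ψ c x
  have h3 := n_eU D ψ 1 y
  rw [one_mul] at h3
  rw [h1]
  calc _ = (eU D ψ c * MonoidAlgebra.single (D.n x) 1) * gw D * gd D a *
        (MonoidAlgebra.single (D.n y) 1 * eU D ψ 1) := by
        simp only [mul_assoc]
    _ = _ := by
        rw [h2, h3]
        unfold H
        simp only [smul_mul_assoc, mul_smul_comm, smul_smul]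
        rw [mul_comm]

/-- span of `eU c * A * eU 1` -/
lemma span_gen (hq : q % 4 = 3) (hψ : ψ.IsPrimitive) (c : ZMod q) (x : MonoidAlgebra k G) :
    eU D ψ c * x * eU D ψ 1 ∈ Submodule.span k
      ({y | ∃ a : (ZMod q)ˣ, c = ((a⁻¹ : (ZMod q)ˣ) : ZMod q) ^ 2 ∧ y = eU D ψ c * gd D a} ∪
        {y | ∃ a : (ZMod q)ˣ, y = H D ψ c a}) := by
  induction x using MonoidAlgebra.induction_linear with
  | zero =>
    rw [mul_zero, zero_mul]
    exact Submodule.zero_mem _
  | add f g hf hg =>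
    rw [mul_add, add_mul]
    exact Submodule.add_mem _ hf hg
  | single g r =>
    have h1 : (MonoidAlgebra.single g r : MonoidAlgebra k G) = r • MonoidAlgebra.single g 1 := by
      rw [MonoidAlgebra.smul_single', mul_one]
    rw [h1, mul_smul_comm, smul_mul_assoc]
    refine Submodule.smul_mem _ _ ?_
    rcases D.cover g with ⟨x, a, rfl⟩ | ⟨x, a, y, rfl⟩
    · rw [borel_part D ψ hq hψ]
      split_ifs with h
      · exact Submodule.smul_mem _ _ (Submodule.subset_span (Or.inl ⟨a, h, rfl⟩))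
      · exact Submodule.zero_mem _
    · rw [big_part]
      exact Submodule.smul_mem _ _ (Submodule.subset_span (Or.inr ⟨a, rfl⟩))

lemma unit_sq_one (a : (ZMod q)ˣ) (h : (1 : ZMod q) = ((a⁻¹ : (ZMod q)ˣ) : ZMod q) ^ 2) :
    D.d a = 1 := by
  have h1 : a⁻¹ ^ 2 = 1 := by
    apply Units.ext
    rw [Units.val_pow_eq_pow_val]
    exact h.symm
  have h2 : a ^ 2 = 1 := by
    rw [inv_pow, inv_eq_one] at h1
    exact h1
  have h3 : (a : ZMod q) ^ 2 = 1 := by
    rw [← Units.val_pow_eq_pow_val, h2, Units.val_one]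
  rcases sq_eq_one_iff.mp h3 with h | h
  · have : a = 1 := Units.ext (by simpa using h)
    rw [this, d_one]
  · have : a = -1 := Units.ext (by simpa using h)
    rw [this, D.d_neg]


lemma dnw_eval (a a' : (ZMod q)ˣ) (x y : ZMod q) :
    D.n x * D.w * D.d a * D.n y = D.w * D.d a' ↔ x = 0 ∧ y = 0 ∧ (a = a' ∨ a = -a') := by
  constructor
  · intro h
    have h1 : D.n x * D.w * D.d a * D.n y = D.n 0 * D.w * D.d a' * D.n 0 := by
      rw [n_zero, one_mul, mul_one, h]
    obtain ⟨h2, h3, h4⟩ := D.inj2 _ _ _ _ _ _ h1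
    exact ⟨h2, h4, h3⟩
  · rintro ⟨rfl, rfl, rfl | rfl⟩
    · rw [n_zero, one_mul, mul_one]
    · rw [n_zero, one_mul, mul_one, d_neg']

omit [CharP k 2] in
/-- expansion of `H` -/
lemma H_expand (c : ZMod q) (a : (ZMod q)ˣ) :
    H D ψ c a = ∑ x : ZMod q, ∑ y : ZMod q,
      MonoidAlgebra.single (D.n x * D.w * D.d a * D.n y) (ψ (-(c * x)) * ψ (-(1 * y))) := by
  unfold H eU gw gd
  simp only [Finset.sum_mul, Finset.mul_sum, MonoidAlgebra.single_mul_single, mul_one]
  rw [Finset.sum_comm]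

/-- coefficient of `H c a` at `w d a'` -/
lemma H_coeff (hq : q % 4 = 3) (c : ZMod q) (a a' : (ZMod q)ˣ) (ha : IsSquare a)
    (ha' : IsSquare a') :
    (H D ψ c a).coeff (D.w * D.d a') = if a = a' then 1 else 0 := by
  classical
  rw [H_expand]
  simp only [MonoidAlgebra.coeff_sum, MonoidAlgebra.coeff_single, Finsupp.finsetSum_apply,
    Finsupp.single_apply, dnw_eval]
  split_ifs with h
  · rw [Finset.sum_eq_single 0, Finset.sum_eq_single 0]
    · simp [h]
    · intro b _ hb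
      simp [hb]
    · simp
    · intro b _ hb
      simp [hb]
    · simp
  · have h2 : ¬ (a = a' ∨ a = -a') := by
      rintro (h1 | h1)
      · exact h h1
      · exact sq_neg hq a' ha' (h1 ▸ ha)
    simp [h2]

/-- coefficient of `H c a` at `1` -/
lemma H_coeff_one (c : ZMod q) (a : (ZMod q)ˣ) : (H D ψ c a).coeff 1 = 0 := by
  classical
  rw [H_expand]
  simp only [MonoidAlgebra.coeff_sum, MonoidAlgebra.coeff_single, Finsupp.finsetSum_apply,
    Finsupp.single_apply]
  refine Finset.sum_eq_zero fun x _ => Finset.sum_eq_zero fun y _ => ?_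
  rw [if_neg]
  intro h
  refine D.disj 0 1 x a y ?_
  rw [n_zero, d_one, one_mul, h]

omit [CharP k 2] in
lemma e_coeff_one (c : ZMod q) : (eU D ψ c).coeff 1 = 1 := by
  classical
  unfold eU
  simp only [MonoidAlgebra.coeff_sum, MonoidAlgebra.coeff_single, Finsupp.finsetSum_apply,
    Finsupp.single_apply]
  rw [Finset.sum_eq_single 0]
  · simp [n_zero]
  · intro b _ hb
    rw [if_neg]
    intro h
    apply hb
    refine (D.inj1 b 1 0 1 ?_).1
    rw [h, n_zero, d_one, mul_one]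
  · simp

omit [CharP k 2] in
lemma e_coeff_w (c : ZMod q) (a : (ZMod q)ˣ) : (eU D ψ c).coeff (D.w * D.d a) = 0 := by
  classical
  unfold eU
  simp only [MonoidAlgebra.coeff_sum, MonoidAlgebra.coeff_single, Finsupp.finsetSum_apply,
    Finsupp.single_apply]
  refine Finset.sum_eq_zero fun x _ => ?_
  rw [if_neg]
  intro h
  refine D.disj x 1 0 a 0 ?_
  rw [n_zero, one_mul, mul_one, d_one, mul_one, h]

/-- `eU c * eU c = eU c` -/
lemma eU_idem (hq : q % 4 = 3) (hψ : ψ.IsPrimitive) (c : ZMod q) :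
    eU D ψ c * eU D ψ c = eU D ψ c := by
  rw [eU_mul D ψ (q_ne_two hq) hψ, if_pos rfl]

lemma H_mem (hq : q % 4 = 3) (hψ : ψ.IsPrimitive) (c : ZMod q) (a : (ZMod q)ˣ) :
    H D ψ c a ∈ cor k (eU D ψ c) (eU D ψ 1) := by
  rw [mem_cor]
  unfold H
  constructor
  · simp only [← mul_assoc]
    rw [eU_idem D ψ hq hψ]
  · rw [mul_assoc, eU_idem D ψ hq hψ]

lemma e_mem (hq : q % 4 = 3) (hψ : ψ.IsPrimitive) :
    eU D ψ 1 ∈ cor k (eU D ψ 1) (eU D ψ 1) :=
  ⟨eU_idem D ψ hq hψ 1, eU_idem D ψ hq hψ 1⟩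

lemma span_m1 (hq : q % 4 = 3) (hψ : ψ.IsPrimitive) :
    cor k (eU D ψ (-1)) (eU D ψ 1) =
      Submodule.span k (Set.range fun a : Sq q => H D ψ (-1) a.1) := by
  apply le_antisymm
  · intro x hx
    have h1 := span_gen D ψ hq hψ (-1) x
    rw [hx.1, hx.2] at h1
    refine (Submodule.span_le.mpr ?_) h1
    rintro y (⟨a, ha, -⟩ | ⟨a, rfl⟩)
    · exact absurd ha.symm (neg_one_not_sq hq _)
    · rcases sq_or hq a with h | h
      · exact Submodule.subset_span ⟨⟨a, (mem_Sq a).mpr h⟩, rfl⟩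
      · exact Submodule.subset_span ⟨⟨-a, (mem_Sq _).mpr h⟩, H_neg D ψ _ a⟩
  · rw [Submodule.span_le]
    rintro _ ⟨a, rfl⟩
    exact H_mem D ψ hq hψ _ _

/-- the basis of `e A e` -/
noncomputable def bas (o : Option (Sq q)) : MonoidAlgebra k G :=
  match o with
  | none => eU D ψ 1
  | some a => H D ψ 1 a.1

lemma span_11 (hq : q % 4 = 3) (hψ : ψ.IsPrimitive) :
    cor k (eU D ψ 1) (eU D ψ 1) = Submodule.span k (Set.range (bas D ψ)) := by
  apply le_antisymm
  · intro x hx
    have h1 := span_gen D ψ hq hψ 1 x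
    rw [hx.1, hx.2] at h1
    refine (Submodule.span_le.mpr ?_) h1
    rintro y (⟨a, ha, rfl⟩ | ⟨a, rfl⟩)
    · refine Submodule.subset_span ⟨none, ?_⟩
      unfold gd
      rw [unit_sq_one D a ha]
      change eU D ψ 1 = eU D ψ 1 * 1
      rw [mul_one]
    · rcases sq_or hq a with h | h
      · exact Submodule.subset_span ⟨some ⟨a, (mem_Sq a).mpr h⟩, rfl⟩
      · exact Submodule.subset_span ⟨some ⟨-a, (mem_Sq _).mpr h⟩, H_neg D ψ _ a⟩
  · rw [Submodule.span_le]
    rintro _ ⟨a, rfl⟩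
    cases a with
    | none => exact e_mem D ψ hq hψ
    | some a => exact H_mem D ψ hq hψ _ _

lemma li_m1 (hq : q % 4 = 3) (c : ZMod q) :
    LinearIndependent k (fun a : Sq q => H D ψ c a.1) := by
  classical
  rw [Fintype.linearIndependent_iff]
  intro g hg i
  have h1 := congrArg (fun z => z.coeff (D.w * D.d i.1)) hg
  simp only [MonoidAlgebra.coeff_sum, Finsupp.finsetSum_apply, MonoidAlgebra.coeff_smul,
    Finsupp.smul_apply, MonoidAlgebra.coeff_zero, Finsupp.zero_apply] at h1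
  rw [Finset.sum_eq_single i] at h1
  · rw [H_coeff D ψ hq c _ _ ((mem_Sq _).mp i.2) ((mem_Sq _).mp i.2), if_pos rfl] at h1
    simpa using h1
  · intro b _ hb
    rw [H_coeff D ψ hq c _ _ ((mem_Sq _).mp b.2) ((mem_Sq _).mp i.2), if_neg, smul_zero]
    intro h
    exact hb (Subtype.ext h)
  · simp

lemma li_11 (hq : q % 4 = 3) : LinearIndependent k (bas D ψ) := by
  classical
  rw [Fintype.linearIndependent_iff]
  intro g hg
  rw [Fintype.sum_option] at hg
  have h0 : g none = 0 := by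
    have h1 := congrArg (fun z => z.coeff 1) hg
    simp only [bas, MonoidAlgebra.coeff_add, Finsupp.add_apply, MonoidAlgebra.coeff_sum,
      Finsupp.finsetSum_apply, MonoidAlgebra.coeff_smul,
      Finsupp.smul_apply, MonoidAlgebra.coeff_zero, Finsupp.zero_apply, H_coeff_one,
      e_coeff_one, smul_zero, Finset.sum_const_zero, add_zero] at h1
    simpa using h1
  rw [h0, zero_smul, zero_add] at hg
  have h2 := Fintype.linearIndependent_iff.mp (li_m1 D ψ hq 1) (fun a => g (some a)) hg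
  intro i
  cases i with
  | none => exact h0
  | some a => exact h2 a

/-- the anti-automorphism -/
lemma exists_anti : ∃ T : MonoidAlgebra k G →ₐ[k] (MonoidAlgebra k G)ᵐᵒᵖ,
    (∀ x, T (MonoidAlgebra.single (D.n x) 1) =
      MulOpposite.op (MonoidAlgebra.single (D.n x) 1)) ∧
    (∀ a, T (gd D a) = MulOpposite.op (gd D a⁻¹)) ∧
    T (gw D) = MulOpposite.op (gw D) := by
  obtain ⟨φ, h1, h2, h3⟩ := LIFT D (M := Gᵐᵒᵖ) (fun x => MulOpposite.op (D.n x))
    (fun a => MulOpposite.op (D.d a⁻¹)) (MulOpposite.op D.w)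
    (by rw [n_zero]; rfl)
    (by
      intro x y
      rw [add_comm, D.n_add]
      rfl)
    (by
      intro a b
      rw [mul_inv_rev, D.d_mul]
      rfl)
    (by
      rw [inv_neg, inv_one, D.d_neg]; rfl)
    (by
      intro a x
      have h := D.dn a⁻¹ ((a : ZMod q) ^ 2 * x)
      rw [← mul_assoc, ← mul_pow, Units.inv_mul, one_pow, one_mul] at h
      exact congrArg MulOpposite.op h.symm)
    (congrArg MulOpposite.op D.ww)
    (by
      intro a
      have h := D.wd a
      rw [inv_inv]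
      exact congrArg MulOpposite.op h.symm)
    (by
      intro a
      have h := D.wnw a
      rw [mul_assoc, mul_assoc, mul_assoc, ← mul_assoc D.w (D.d a), D.wd a, mul_assoc] at h
      exact congrArg MulOpposite.op h)
  refine ⟨MonoidAlgebra.lift k _ G ((MonoidAlgebra.of k G).op.comp φ), ?_, ?_, ?_⟩
  · intro x
    rw [MonoidAlgebra.lift_single, one_smul, MonoidHom.comp_apply, h1]
    rfl
  · intro a
    unfold gd
    rw [MonoidAlgebra.lift_single, one_smul, MonoidHom.comp_apply, h2]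
    rfl
  · unfold gw
    rw [MonoidAlgebra.lift_single, one_smul, MonoidHom.comp_apply, h3]
    rfl

/-- the anti-automorphism is the identity on `e A e` -/
lemma anti_id (hq : q % 4 = 3) (hψ : ψ.IsPrimitive)
    (T : MonoidAlgebra k G →ₐ[k] (MonoidAlgebra k G)ᵐᵒᵖ)
    (h1 : ∀ x, T (MonoidAlgebra.single (D.n x) 1) =
      MulOpposite.op (MonoidAlgebra.single (D.n x) 1))
    (h2 : ∀ a, T (gd D a) = MulOpposite.op (gd D a⁻¹))
    (h3 : T (gw D) = MulOpposite.op (gw D)) (x : MonoidAlgebra k G)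
    (hx : x ∈ cor k (eU D ψ 1) (eU D ψ 1)) : T x = MulOpposite.op x := by
  have he : T (eU D ψ 1) = MulOpposite.op (eU D ψ 1) := by
    have h0 : ∀ (g : G) (r : k), (MonoidAlgebra.single g r : MonoidAlgebra k G) =
        r • MonoidAlgebra.single g 1 := by
      intro g r
      rw [MonoidAlgebra.smul_single', mul_one]
    unfold eU
    simp only [h0 _ (ψ _)]
    rw [map_sum, Finset.op_sum]
    refine Finset.sum_congr rfl fun y _ => ?_
    rw [map_smul, h1, MulOpposite.op_smul]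
  have hwd : ∀ a, gd D a⁻¹ * gw D = (gw D * gd D a : MonoidAlgebra k G) := by
    intro a
    unfold gd gw
    rw [MonoidAlgebra.single_mul_single, MonoidAlgebra.single_mul_single, D.wd]
  rw [span_11 D ψ hq hψ] at hx
  induction hx using Submodule.span_induction with
  | mem y hy =>
    obtain ⟨o, rfl⟩ := hy
    cases o with
    | none => exact he
    | some a =>
      change T (eU D ψ 1 * gw D * gd D a.1 * eU D ψ 1) = _
      rw [map_mul, map_mul, map_mul, he, h2, h3]
      rw [← MulOpposite.op_mul, ← MulOpposite.op_mul, ← MulOpposite.op_mul]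
      congr 1
      rw [← mul_assoc (gd D a.1⁻¹), hwd]
      change _ = eU D ψ 1 * gw D * gd D a.1 * eU D ψ 1
      simp only [mul_assoc]
  | zero => rw [map_zero]; rfl
  | add y z _ _ hy hz => rw [map_add, hy, hz]; rfl
  | smul c y _ hy => rw [map_smul, hy]; rfl

end
end DIM2

section
variable {q : ℕ} [Fact q.Prime] {G : Type} [Group G] (D : BN q G)
  {k : Type u} [Field k] [CharP k 2] (ψ : AddChar (ZMod q) k)

/-- the Hecke algebra is spanned by `e` and the `hk a` -/
theorem cor11_span (hq : q % 4 = 3) (hψ : ψ.IsPrimitive) (x : MonoidAlgebra k G)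
    (hx : x ∈ cor k (eU D ψ 1) (eU D ψ 1)) :
    ∃ (c0 : k) (c : (ZMod q)ˣ → k), x = c0 • eU D ψ 1 + ∑ a, c a • hk D ψ a := by
  classical
  rw [DIM2.span_11 D ψ hq hψ] at hx
  induction hx using Submodule.span_induction with
  | mem y hy =>
    obtain ⟨o, rfl⟩ := hy
    cases o with
    | none => exact ⟨1, 0, by simp [DIM2.bas]⟩
    | some a =>
      refine ⟨0, Pi.single a.1 1, ?_⟩
      rw [zero_smul, zero_add, Finset.sum_eq_single a.1]
      · rw [Pi.single_eq_same, one_smul]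
        rfl
      · intro b _ hb
        rw [Pi.single_eq_of_ne hb, zero_smul]
      · intro h
        exact absurd (Finset.mem_univ _) h
  | zero => exact ⟨0, 0, by simp⟩
  | add y z _ _ hy hz =>
    obtain ⟨c0, c, rfl⟩ := hy
    obtain ⟨c0', c', rfl⟩ := hz
    refine ⟨c0 + c0', c + c', ?_⟩
    simp only [Pi.add_apply, add_smul, Finset.sum_add_distrib]
    abel
  | smul r y _ hy =>
    obtain ⟨c0, c, rfl⟩ := hy
    refine ⟨r * c0, r • c, ?_⟩
    rw [smul_add, Finset.smul_sum, smul_smul]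
    simp only [Pi.smul_apply, smul_eq_mul, smul_smul]

/-- the Hecke algebra is commutative -/
theorem cor11_comm (hq : q % 4 = 3) (hψ : ψ.IsPrimitive) (x y : MonoidAlgebra k G)
    (hx : x ∈ cor k (eU D ψ 1) (eU D ψ 1)) (hy : y ∈ cor k (eU D ψ 1) (eU D ψ 1)) :
    x * y = y * x := by
  obtain ⟨T, h1, h2, h3⟩ := DIM2.exists_anti (k := k) D
  have hxy : x * y ∈ cor k (eU D ψ 1) (eU D ψ 1) :=
    ⟨by rw [← mul_assoc, hx.1], by rw [mul_assoc, hy.2]⟩
  have e1 := DIM2.anti_id D ψ hq hψ T h1 h2 h3 _ hxy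
  rw [map_mul, DIM2.anti_id D ψ hq hψ T h1 h2 h3 _ hx, DIM2.anti_id D ψ hq hψ T h1 h2 h3 _ hy]
    at e1
  exact (MulOpposite.op_injective e1).symm

theorem cor11_rank (hq : q % 4 = 3) (hψ : ψ.IsPrimitive) :
    Module.finrank k (cor k (eU D ψ 1) (eU D ψ 1)) = (q + 1) / 2 := by
  rw [DIM2.span_11 D ψ hq hψ, finrank_span_eq_card (DIM2.li_11 D ψ hq), Fintype.card_option,
    Fintype.card_coe, DIM2.card_Sq hq]
  omega

theorem corm1_rank (hq : q % 4 = 3) (hψ : ψ.IsPrimitive) :
    Module.finrank k (cor k (eU D ψ (-1)) (eU D ψ 1)) = (q - 1) / 2 := by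
  rw [DIM2.span_m1 D ψ hq hψ, finrank_span_eq_card (DIM2.li_m1 D ψ hq (-1)),
    Fintype.card_coe, DIM2.card_Sq hq]

end

end CM
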